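import Pool.Agent.Lib.MP_d71b33_lc_h91.SysDefs
import Pool.Agent.Lib.MP_d71b33_lc_h91.TR
import Pool.Agent.Lib.MP_d71b33_lc_h91.RA
import Pool.Agent.Lib.MP_d71b33_lc_h91.RF
import Pool.Agent.Lib.MP_d71b33_lc_h28.GR
import Pool.Agent.Lib.MP_d71b33_lc_h46.NE
import Pool.Agent.Lib.MP_d71b33_lc_h93.RX
import Pool.Agent.Lib.MP_d71b33_lc_h17.RL
import Pool.Agent.Lib.MP_d71b33_lc_h17.CVL1
import Pool.Agent.Lib.MP_d71b33_lc_h17.CVL2
import Pool.Agent.Lib.MP_d71b33_lc_h73.CVD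

/-!
# Task AS1: all conversions in both directions
-/

namespace Pool.Agent.Bfly

open Set

variable {n : ℕ}

namespace AS1

theorem chain_rf (S : Sys n) {P' : Set (Node n)} {R r : ℕ} {a b : Node n}
    (h : Chain (butterfly n) S.refl.F P' R r a b) :
    Chain (butterfly n) S.F {c | rf c ∈ P'} R r (rf a) (rf b) := by
  induction h with
  | refl hx => exact Chain.refl (by show rf (rf _) ∈ P'; rw [rf_rf]; exact hx)
  | @step r x y z _ hyz hz ih =>
    refine Chain.step ih ?_ (by show rf (rf _) ∈ P'; rw [rf_rf]; exact hz)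
    refine (near_rf S R (rf y) (rf z)).1 ?_
    rw [rf_rf, rf_rf]; exact hyz

theorem near_rf' (S : Sys n) {R : ℕ} {a b : Node n} (h : Near (butterfly n) S.refl.F R a b) :
    Near (butterfly n) S.F R (rf a) (rf b) := by
  refine (near_rf S R (rf a) (rf b)).1 ?_
  rw [rf_rf, rf_rf]; exact h

theorem bit_eq {p q : ℕ} {x y : Rw n} (h : AgOut p q x y) {j : ℕ} (hj : j < p ∨ q ≤ j) :
    bit x j = bit y j := by
  unfold bit
  by_cases hn : j < n
  · rw [dif_pos hn, dif_pos hn]; exact h ⟨j, hn⟩ hj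
  · rw [dif_neg hn, dif_neg hn]

variable (S : Sys n)

theorem lev_mono {k l : ℕ} (h : k ≤ l) (hl : l ≤ S.m) : S.lev k ≤ S.lev l :=
  S.toFrame.lev_mono h hl

theorem lev_le_iff {k l : ℕ} (hk : k ≤ S.m) (hl : l ≤ S.m) : S.lev k ≤ S.lev l ↔ k ≤ l := by
  constructor
  · intro h
    by_contra hc
    push Not at hc
    have := S.toFrame.lev_lt hc hk
    have h' : S.lev k ≤ S.lev l := h
    omega
  · exact fun h => lev_mono S h hl

theorem h_pos (i : ℕ) : 0 < S.h i := by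
  unfold Sys.h
  have h1 := S.h0_big
  have h2 := S.M_big
  have h3 : 0 < S.M := by
    have : 0 < cbg S.g := by unfold cbg; omega
    omega
  have h4 : 0 < S.M ^ i := Nat.pow_pos h3
  exact Nat.mul_pos (by omega) h4

theorem h_dvd {i j : ℕ} (hij : i ≤ j) : S.h i ∣ S.h j := by
  unfold Sys.h
  exact Nat.mul_dvd_mul_left _ (pow_dvd_pow _ hij)

theorem h_le {i j : ℕ} (hij : i ≤ j) : S.h i ≤ S.h j := Nat.le_of_dvd (h_pos S j) (h_dvd S hij)

theorem dvd_of_mod {a h : ℕ} (hm : a % (2 * h) = h) : h ∣ a := by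
  have := Nat.div_add_mod a (2 * h)
  rw [hm] at this
  refine ⟨2 * (a / (2 * h)) + 1, ?_⟩
  calc a = 2 * h * (a / (2 * h)) + h := this.symm
    _ = h * (2 * (a / (2 * h)) + 1) := by ring

/-- divisibility of walls -/
theorem wall_dvd {Y : Core n} (hY : Y ∈ S.cores) {β : ℕ}
    (hβ : (β = Y.s ∨ β = S.zs Y) ∧ Y.s ≠ 0 ∨ (β = Y.e ∨ β = S.ze Y) ∧ Y.e ≠ S.m) :
    S.h Y.i ∣ β + S.o := by
  rcases hβ with ⟨hβ, h0⟩ | ⟨hβ, h0⟩
  · rcases S.core_s Y hY with h1 | ⟨h1, h2⟩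
    · exact absurd h1 h0
    · have hd : S.h Y.i ∣ Y.s + S.o := dvd_of_mod h1
      rcases hβ with rfl | rfl
      · exact hd
      · have h4 : 4 * S.h Y.i ≤ Y.s := by
          refine le_trans (Nat.mul_le_mul_right _ ?_) h2
          omega
        have e : S.zs Y = Y.s - 4 * S.h Y.i := by unfold Sys.zs; rw [if_neg h0]
        rw [e]
        have : Y.s - 4 * S.h Y.i + S.o = (Y.s + S.o) - 4 * S.h Y.i := by omega
        rw [this]
        exact Nat.dvd_sub hd (Dvd.intro_left 4 rfl)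
  · rcases S.core_e Y hY with h1 | ⟨h1, h2⟩
    · exact absurd h1 h0
    · have hd : S.h Y.i ∣ Y.e + S.o := dvd_of_mod h1
      rcases hβ with rfl | rfl
      · exact hd
      · have e : S.ze Y = Y.e + 4 * S.h Y.i := by unfold Sys.ze; rw [if_neg h0]
        rw [e]
        have : Y.e + 4 * S.h Y.i + S.o = (Y.e + S.o) + 4 * S.h Y.i := by omega
        rw [this]
        exact Nat.dvd_add hd (Dvd.intro_left 4 rfl)

theorem special_of {X Y : Core n} (hY : Y ∈ S.cores) (hXY : X.i ≤ Y.i) {β : ℕ}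
    (hβ : (β = Y.s ∨ β = S.zs Y) ∧ Y.s ≠ 0 ∨ (β = Y.e ∨ β = S.ze Y) ∧ Y.e ≠ S.m) {u : Node n}
    (hu : u.2.val = S.lev β) (h1 : S.it X ≤ β) (h2 : β ≤ S.ib X) : S.special X u :=
  ⟨β, h1, h2, (h_dvd S hXY).trans (wall_dvd S hY hβ), hu⟩

/-- run a free site of a T-structure down to its lower end -/
theorem run_R {Q : Core n} (hQ : Q ∈ S.cores) {w y : Rw n} {k : ℕ} (hk : S.it Q ≤ k)
    (hk' : k ≤ S.ib Q) (hy : S.InR Q w y) (hf : S.free y k) :
    ∃ y', S.InR Q w y' ∧ S.free y' (S.ib Q) := by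
  obtain ⟨-, -, -, -, -, z6, z7, z8, -, -, -, -⟩ := S.zone_arith hQ
  obtain ⟨X, Y, hX0, hY0, h1, h2, h3⟩ := S.run_down y y k (S.ib Q) hk' z6
    (fun d => bit w (S.lev (S.zs Q) + (d - S.tw Q))) (fun d => decide (d = S.mkd Q))
  obtain ⟨a1, -, -, a2⟩ := h1 (S.ib Q) hk' le_rfl
  have hkm : k ≤ S.m := hk'.trans z6
  have hmono : S.lev (S.it Q) ≤ S.lev k := lev_mono S hk hkm
  have hbit : ∀ d, d < k → bit (X (S.ib Q)) (S.sb d) = bit y (S.sb d) ∧
      bit (X (S.ib Q)) (S.rb d) = bit y (S.rb d) := by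
    intro d hd
    have hdm : d < S.m := by omega
    have b1 := S.sb_hi d hdm
    have b2 := S.rb_hi d hdm
    have b3 : S.lev (d + 1) ≤ S.lev k := lev_mono S hd hkm
    have b4 : S.sb d < S.lev k := by omega
    have b5 : S.rb d < S.lev k := by omega
    exact ⟨bit_eq a1 (Or.inl b4), bit_eq a1 (Or.inl b5)⟩
  refine ⟨X (S.ib Q), ⟨?_, ?_, ?_⟩, ?_⟩
  · exact (a1.mono hmono le_rfl).trans hy.1
  · intro d hd1 hd2
    rcases lt_or_ge d k with h | h
    · rw [(hbit d h).1]; exact hy.2.1 d hd1 hd2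
    · exact (a2 d h hd2).2.1
  · intro j hj
    rcases lt_or_ge (S.tw Q + j) k with h | h
    · rw [(hbit _ h).2]; exact hy.2.2 j hj
    · rw [(a2 (S.tw Q + j) h (by omega)).1]
      congr 2
      omega
  · intro Q' hQ' hm
    have := (h3 k (S.ib Q) le_rfl hk' le_rfl Q' hQ').1 hm
    rw [hX0] at this
    exact hf Q' hQ' this

theorem to_ib {Q : Core n} (hQ : Q ∈ S.cores) {u : Node n} (hu : S.inZ Q u.1)
    (hsp : S.special Q u) {y : Rw n} {k : ℕ} (hk : S.it Q ≤ k)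
    (hk' : k ≤ S.ib Q) (hy : S.InR Q u.1 y) (hf : S.free y k) :
    ∃ y', S.InR Q u.1 y' ∧ S.free y' (S.ib Q) ∧ ∃ r ≤ 4 * ((csm S.g + 12 + tau S.g) * S.h Q.i),
      Chain (butterfly n) S.F (S.PR u) (2 * S.g) r (nd y (S.lev k)) (nd y' (S.lev (S.ib Q))) := by
  obtain ⟨y', hy', hf'⟩ := run_R S hQ hk hk' hy hf
  obtain ⟨z1, z2, z3, z4, z5, z6, z7, z8, z9, z10, z11, z12⟩ := S.zone_arith hQ
  obtain ⟨r, hr, hc⟩ := S.flood_R hQ hu hsp hy hy' hk hk' (hk.trans hk') le_rfl hf hf'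
  exact ⟨y', hy', hf', r, by omega, hc⟩

theorem len_bound {Y : Core n} {c r1 r2 r3 : ℕ} (hc : c ≤ S.h Y.i)
    (h1 : r1 ≤ 4 * ((csm S.g + 12 + tau S.g) * c)) (h2 : r2 ≤ 8 * cbg S.g * S.h Y.i)
    (h3 : r3 ≤ 4 * ((csm S.g + 12 + tau S.g) * S.h Y.i)) :
    r1 + r2 + r3 ≤ 16 * cbg S.g * S.h Y.i := by
  have e1 : (csm S.g + 12 + tau S.g) * c ≤ (csm S.g + 12 + tau S.g) * S.h Y.i :=
    Nat.mul_le_mul_left _ hc
  have e2 : (csm S.g + 12 + tau S.g) * S.h Y.i ≤ cbg S.g * S.h Y.i := by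
    refine Nat.mul_le_mul_right _ ?_
    unfold cbg; omega
  have e3 : 8 * cbg S.g * S.h Y.i = 8 * (cbg S.g * S.h Y.i) := by ring
  have e4 : 16 * cbg S.g * S.h Y.i = 16 * (cbg S.g * S.h Y.i) := by ring
  rw [e3] at h2
  rw [e4]
  omega

theorem inZ_of_memN {Y : Core n} (hY : Y ∈ S.cores) {u : Node n} (h : S.memN Y u) :
    S.inZ Y u.1 := by
  obtain ⟨z1, z2, z3, -⟩ := S.zone_arith hY
  exact h.2.2.mono (lev_mono S z1 (((S.core_lt Y hY).le).trans (S.core_le Y hY)))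
    (lev_mono S z2 z3)

/-! ### the lower walls -/

theorem D_home_import {Y : Core n} (hY : Y ∈ S.cores) (hYe : Y.e ≠ S.m) {u : Node n}
    (hu : S.freeN u) (huZ : S.inZ Y u.1) (hul : u.2.val = S.lev (S.ze Y)) {y : Rw n} {k : ℕ}
    (hk : S.it Y ≤ k) (hk' : k ≤ S.ib Y) (hy : S.InR Y u.1 y) (hfy : S.free y k) :
    ∃ r ≤ 16 * cbg S.g * S.h Y.i, Chain (butterfly n) S.F ({u} ∪ S.PR u ∪ S.PD u) (2 * S.g) r
      u (nd y (S.lev k)) := by
  obtain ⟨z1, z2, z3, z4, z5, z6, z7, z8, z9, z10, z11, z12⟩ := S.zone_arith hY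
  have hsY := S.core_lt Y hY
  have hsp : S.special Y u := special_of S hY le_rfl (Or.inr ⟨Or.inr rfl, hYe⟩) hul
    (by omega) z5
  obtain ⟨y', hy', hf', r1, hr1, c1⟩ := to_ib S hY huZ hsp hk hk' hy hfy
  obtain ⟨r2, hr2, c2⟩ := S.convD_home_import hY hYe hu huZ hul hy' hf'
  have c1' := (c1.symm).mono (show S.PR u ⊆ {u} ∪ S.PR u ∪ S.PD u from
    fun a ha => Or.inl (Or.inr ha))
  refine ⟨r2 + r1, ?_, c2.trans c1'⟩
  have := len_bound S (Y := Y) (c := 0) (r1 := 0) (r2 := r2) (r3 := r1) (Nat.zero_le _)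
    (Nat.zero_le _) hr2 hr1
  omega

theorem D_home_export {Y : Core n} (hY : Y ∈ S.cores) (hYe : Y.e ≠ S.m) {u v : Node n}
    (huY : S.memN Y u) (hul : u.2.val = S.lev Y.e) (hv : S.freeN v) (hvu : (butterfly n).Adj u v)
    (hvl : v.2.val = S.lev Y.e + 1) {y : Rw n} {k : ℕ}
    (hk : S.it Y ≤ k) (hk' : k ≤ S.ib Y) (hy : S.InR Y u.1 y) (hfy : S.free y k) :
    ∃ r ≤ 16 * cbg S.g * S.h Y.i, ∃ a, Chain (butterfly n) S.F (S.PR u ∪ S.PD u) (2 * S.g) r
      (nd y (S.lev k)) a ∧ Near (butterfly n) S.F (2 * S.g) a v := by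
  obtain ⟨z1, z2, z3, z4, z5, z6, z7, z8, z9, z10, z11, z12⟩ := S.zone_arith hY
  have hsY := S.core_lt Y hY
  have hsp : S.special Y u := special_of S hY le_rfl (Or.inr ⟨Or.inl rfl, hYe⟩) hul
    (by omega) (by omega)
  obtain ⟨y', hy', hf', r1, hr1, c1⟩ := to_ib S hY (inZ_of_memN S hY huY) hsp hk hk' hy hfy
  obtain ⟨r2, hr2, a, c2, hn⟩ := S.convD_home_export hY hYe huY hul hv hvu hvl hy' hf'
  have c1' := c1.mono (show S.PR u ⊆ S.PR u ∪ S.PD u from fun a ha => Or.inl ha)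
  refine ⟨r1 + r2, ?_, a, c1'.trans c2, hn⟩
  have := len_bound S (Y := Y) (c := 0) (r1 := 0) (r2 := r2) (r3 := r1) (Nat.zero_le _)
    (Nat.zero_le _) hr2 hr1
  omega

theorem D_small {X Y : Core n} (hX : X ∈ S.cores) (hY : Y ∈ S.cores) (hXY : X.i < Y.i)
    {u : Node n} (huX : S.inZ X u.1) {β : ℕ} (hβ : S.lowW Y β u.1) (hul : u.2.val = S.lev β)
    (hβX : S.it X ≤ β) (hβX' : β ≤ S.ib X) {x y : Rw n} {k l : ℕ}
    (hk : S.it X ≤ k) (hk' : k ≤ S.ib X) (hl : S.it Y ≤ l) (hl' : l ≤ S.ib Y)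
    (hx : S.InR X u.1 x) (hfx : S.free x k) (hy : S.InR Y u.1 y) (hfy : S.free y l) :
    ∃ r ≤ 16 * cbg S.g * S.h Y.i, Chain (butterfly n) S.F (S.PR u ∪ S.PD u) (2 * S.g) r
      (nd x (S.lev k)) (nd y (S.lev l)) := by
  obtain ⟨z1, z2, z3, z4, z5, z6, z7, z8, z9, z10, z11, z12⟩ := S.zone_arith hY
  have hsY := S.core_lt Y hY
  have hb : (β = Y.s ∨ β = S.zs Y) ∧ Y.s ≠ 0 ∨ (β = Y.e ∨ β = S.ze Y) ∧ Y.e ≠ S.m :=
    Or.inr ⟨hβ.1, hβ.2.1⟩
  have hspX : S.special X u := special_of S hY hXY.le hb hul hβX hβX'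
  have hspY : S.special Y u := special_of S hY le_rfl hb hul
    (by rcases hβ.1 with h | h <;> omega) (by rcases hβ.1 with h | h <;> omega)
  obtain ⟨x', hx', hfx', r1, hr1, c1⟩ := to_ib S hX huX hspX hk hk' hx hfx
  obtain ⟨y', hy', hfy', r3, hr3, c3⟩ := to_ib S hY hβ.2.2.1 hspY hl hl' hy hfy
  obtain ⟨r2, hr2, c2⟩ := S.convD_small hX hY hXY huX hβ hul hβX hβX' hx' hfx' hy' hfy'
  have c1' := c1.mono (show S.PR u ⊆ S.PR u ∪ S.PD u from fun a ha => Or.inl ha)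
  have c3' := c3.symm.mono (show S.PR u ⊆ S.PR u ∪ S.PD u from fun a ha => Or.inl ha)
  exact ⟨r1 + r2 + r3, len_bound S (h_le S hXY.le) hr1 hr2 hr3, (c1'.trans c2).trans c3'⟩

theorem D_equal {X Y : Core n} (hX : X ∈ S.cores) (hY : Y ∈ S.cores) (hXY : X.i = Y.i)
    (hty : S.ty Y = true) {u : Node n} (huX : S.memN X u) (huY : S.inZ Y u.1) {β : ℕ}
    (hβ : β = S.zs Y ∧ Y.s ≠ 0 ∨ β = S.ze Y ∧ Y.e ≠ S.m) (hul : u.2.val = S.lev β)
    {x y : Rw n} {k l : ℕ}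
    (hk : S.it X ≤ k) (hk' : k ≤ S.ib X) (hl : S.it Y ≤ l) (hl' : l ≤ S.ib Y)
    (hx : S.InR X u.1 x) (hfx : S.free x k) (hy : S.InR Y u.1 y) (hfy : S.free y l) :
    ∃ r ≤ 16 * cbg S.g * S.h Y.i, Chain (butterfly n) S.F (S.PR u ∪ S.PD u) (2 * S.g) r
      (nd x (S.lev k)) (nd y (S.lev l)) := by
  obtain ⟨z1, z2, z3, z4, z5, z6, z7, z8, z9, z10, z11, z12⟩ := S.zone_arith hY
  obtain ⟨w1, w2, w3, w4, w5, w6, -⟩ := S.zone_arith hX
  have hsY := S.core_lt Y hY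
  have hsX := S.core_lt X hX
  have heX := S.core_le X hX
  have hb : (β = Y.s ∨ β = S.zs Y) ∧ Y.s ≠ 0 ∨ (β = Y.e ∨ β = S.ze Y) ∧ Y.e ≠ S.m := by
    rcases hβ with h | h
    · exact Or.inl ⟨Or.inr h.1, h.2⟩
    · exact Or.inr ⟨Or.inr h.1, h.2⟩
  have hβm : β ≤ S.m := by rcases hβ with h | h <;> omega
  have g1 : X.s ≤ β := by
    have := huX.1
    rw [hul] at this
    exact (lev_le_iff S (by omega) hβm).1 this
  have g2 : β ≤ X.e := by
    have := huX.2.1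
    rw [hul] at this
    exact (lev_le_iff S hβm heX).1 this
  have hspX : S.special X u := special_of S hY hXY.le hb hul (by omega) (by omega)
  have hspY : S.special Y u := special_of S hY le_rfl hb hul
    (by rcases hβ with h | h <;> omega) (by rcases hβ with h | h <;> omega)
  obtain ⟨x', hx', hfx', r1, hr1, c1⟩ := to_ib S hX (inZ_of_memN S hX huX) hspX hk hk' hx hfx
  obtain ⟨y', hy', hfy', r3, hr3, c3⟩ := to_ib S hY huY hspY hl hl' hy hfy
  obtain ⟨r2, hr2, c2⟩ := S.convD_equal hX hY hXY hty huX huY hβ hul hx' hfx' hy' hfy'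
  have c1' := c1.mono (show S.PR u ⊆ S.PR u ∪ S.PD u from fun a ha => Or.inl ha)
  have c3' := c3.symm.mono (show S.PR u ⊆ S.PR u ∪ S.PD u from fun a ha => Or.inl ha)
  exact ⟨r1 + r2 + r3, len_bound S (h_le S hXY.le) hr1 hr2 hr3, (c1'.trans c2).trans c3'⟩

/-! ### reflection of sites -/

theorem rv_rv' (x : Rw n) : rv (rv x) = x := rv_rv x

theorem nd_rf (x : Rw n) {k : ℕ} (hk : k ≤ S.m) :
    rf (nd (rv x) (S.refl.lev (S.m - k))) = nd x (S.lev k) := by
  have h1 : S.refl.lev (S.m - k) = n - S.lev (S.m - (S.m - k)) := rfl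
  have h2 : S.m - (S.m - k) = k := by omega
  have h3 : S.lev k ≤ n := S.toFrame.lev_le_n hk
  rw [h1, h2]
  unfold rf nd
  refine Prod.ext ?_ ?_
  · exact rv_rv x
  · apply Fin.ext
    simp only [Fin.val_rev]
    omega

theorem rf_val (u : Node n) : (rf u).2.val = n - u.2.val := by
  unfold rf
  simp only [Fin.val_rev]
  omega

theorem refl_mem {Y : Core n} (hY : Y ∈ S.cores) : Core.refl S.m Y ∈ S.refl.cores :=
  ⟨Y, hY, rfl⟩

theorem adj_rf {u v : Node n} (h : (butterfly n).Adj u v) : (butterfly n).Adj (rf u) (rf v) :=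
  (butterfly_rf u v).2 h

/-- neighbours outside a core -/
theorem wall_cases {Y : Core n} {u v : Node n} (hu : S.memN Y u)
    (hv : ¬ S.memN Y v) (huv : (butterfly n).Adj u v) :
    (u.2.val = S.lev Y.e ∧ v.2.val = S.lev Y.e + 1 ∧ Y.e ≠ S.m) ∨
    (u.2.val = S.lev Y.s ∧ v.2.val + 1 = S.lev Y.s ∧ Y.s ≠ 0) := by
  obtain ⟨h1, h2, h3⟩ := hu
  rcases huv with ⟨a1, a2⟩ | ⟨a1, a2⟩
  · left
    have : u.2.val = S.lev Y.e := by
      by_contra hc
      apply hv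
      refine ⟨by omega, by omega, fun j hj => ?_⟩
      rw [a2 j (by omega)]
      exact h3 j hj
    refine ⟨this, by omega, fun he => ?_⟩
    have e1 : S.lev Y.e = n := by rw [he]; exact S.lev_m
    have e2 := v.2.isLt
    omega
  · right
    have : u.2.val = S.lev Y.s := by
      by_contra hc
      apply hv
      refine ⟨by omega, by omega, fun j hj => ?_⟩
      rw [← a2 j (by omega)]
      exact h3 j hj
    refine ⟨this, by omega, fun he => ?_⟩
    have e1 : S.lev Y.s = 0 := by rw [he]; exact S.lev_zero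
    omega

end AS1

namespace Sys

variable (S : Sys n)

/-- the allowed relay sites of the role `u` -/
def P (u : Node n) : Set (Node n) :=
  {a | a = u ∧ S.freeN u} ∪ S.PR u ∪ S.PD u ∪ {a | rf a ∈ S.refl.PD (rf u)}

theorem load_PD (a : Node n) : {u | a ∈ S.PD u}.encard ≤ KD S.g S.K := by
  have h1 := S.load_PAh a
  have h2 := S.load_PAe a
  have h3 := S.load_PAs a
  have h4 := S.load_PB a
  have hsub : {u | a ∈ S.PD u} ⊆ {u | a ∈ S.PAh u} ∪ {u | a ∈ S.PAe u} ∪ {u | a ∈ S.PAs u} ∪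
      {u | a ∈ S.PB u} := by
    rintro u (((hu | hu) | hu) | hu)
    · exact Or.inl (Or.inl (Or.inl hu))
    · exact Or.inl (Or.inl (Or.inr hu))
    · exact Or.inl (Or.inr hu)
    · exact Or.inr hu
  refine (encard_le_encard hsub).trans ?_
  refine (encard_union_le _ _).trans ?_
  refine (add_le_add ((encard_union_le _ _).trans (add_le_add ((encard_union_le _ _).trans
    (add_le_add h1 h2)) h3)) h4).trans ?_
  have key : 4 * S.K + S.K * (2 * (csm S.g + 14 + tau S.g) + 8)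
      + 4 * S.K * S.K * (2 * (csm S.g + 14 + tau S.g) + 8) + 32 * S.K ≤ KD S.g S.K := by
    unfold KD
    generalize csm S.g + 14 + tau S.g = x
    generalize S.K = K
    nlinarith [Nat.zero_le (K * x), Nat.zero_le (K * K * x), Nat.zero_le x, Nat.zero_le K,
      Nat.zero_le (K * K)]
  exact_mod_cast key

theorem load_P (a : Node n) : {u | a ∈ S.P u}.encard ≤ KT S.g S.K := by
  have h1 : {u : Node n | a = u ∧ S.freeN u}.encard ≤ 1 := by
    refine (encard_le_encard (t := {a}) ?_).trans (by rw [encard_singleton])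
    rintro u ⟨hu, -⟩
    exact hu.symm
  have h2 : {u | a ∈ S.PR u}.encard ≤ KR S.g S.K := by
    refine le_trans ?_ (S.load_R a)
    refine le_trans (encard_le_encard ?_) (encard_image_le Prod.snd _)
    rintro u ⟨Q, hQ, hZ, k, hk⟩
    exact ⟨(Q, u), ⟨hQ, hZ, k, hk⟩, rfl⟩
  have h3 := S.load_PD a
  have h4 : {u : Node n | rf a ∈ S.refl.PD (rf u)}.encard ≤ KD S.g S.K := by
    have h5 := S.refl.load_PD (rf a)
    refine le_trans ?_ h5
    refine le_trans (encard_le_encard ?_) (encard_image_le rf _)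
    intro u hu
    exact ⟨rf u, hu, rf_rf u⟩
  have hsub : {u | a ∈ S.P u} ⊆ {u : Node n | a = u ∧ S.freeN u} ∪ {u | a ∈ S.PR u} ∪
      {u | a ∈ S.PD u} ∪ {u : Node n | rf a ∈ S.refl.PD (rf u)} := by
    rintro u (((hu | hu) | hu) | hu)
    · exact Or.inl (Or.inl (Or.inl hu))
    · exact Or.inl (Or.inl (Or.inr hu))
    · exact Or.inl (Or.inr hu)
    · exact Or.inr hu
  refine (encard_le_encard hsub).trans ?_
  refine (encard_union_le _ _).trans ?_
  refine (add_le_add ((encard_union_le _ _).trans (add_le_add ((encard_union_le _ _).trans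
    (add_le_add h1 h2)) h3)) h4).trans ?_
  have key : 1 + KR S.g S.K + KD S.g S.K + KD S.g S.K ≤ KT S.g S.K := by
    unfold KT; omega
  exact_mod_cast key

theorem subD (u : Node n) : S.PR u ∪ S.PD u ⊆ S.P u := by
  rintro a (ha | ha)
  · exact Or.inl (Or.inl (Or.inr ha))
  · exact Or.inl (Or.inr ha)

theorem subU (u : Node n) : {c | rf c ∈ S.refl.PR (rf u) ∪ S.refl.PD (rf u)} ⊆ S.P u := by
  rintro a (ha | ha)
  · have h : rf a ∈ S.refl.PR (rf u) := ha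
    rw [S.PR_rf u] at h
    have h' : rf (rf a) ∈ S.PR u := h
    rw [rf_rf] at h'
    exact Or.inl (Or.inl (Or.inr h'))
  · exact Or.inr ha

theorem subU' {u : Node n} (hu : S.freeN u) :
    {c | rf c ∈ ({rf u} ∪ S.refl.PR (rf u) ∪ S.refl.PD (rf u) : Set (Node n))} ⊆ S.P u := by
  rintro a ((ha | ha) | ha)
  · have h : rf a = rf u := ha
    have h' : a = u := by rw [← rf_rf a, h, rf_rf]
    exact Or.inl (Or.inl (Or.inl ⟨h', hu⟩))
  · exact S.subU u (Or.inl ha)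
  · exact S.subU u (Or.inr ha)

theorem conv_home_import {Y : Core n} (hY : Y ∈ S.cores) {u : Node n} (hu : S.freeN u)
    (hw : S.onZone Y u) {y : Rw n} {k : ℕ} (hk : S.it Y ≤ k) (hk' : k ≤ S.ib Y)
    (hy : S.InR Y u.1 y) (hfy : S.free y k) :
    ∃ r ≤ 16 * cbg S.g * S.h Y.i, Chain (butterfly n) S.F (S.P u) (2 * S.g) r
      u (nd y (S.lev k)) := by
  obtain ⟨z1, z2, z3, z4, z5, z6, z7, z8, z9, z10, z11, z12⟩ := S.zone_arith hY
  obtain ⟨hZ, hw | hw⟩ := hw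
  · obtain ⟨r, hr, hc⟩ := AS1.D_home_import S hY hw.2 hu hZ hw.1 hk hk' hy hfy
    refine ⟨r, hr, hc.mono ?_⟩
    rintro a ((ha | ha) | ha)
    · exact Or.inl (Or.inl (Or.inl ⟨ha, hu⟩))
    · exact S.subD u (Or.inl ha)
    · exact S.subD u (Or.inr ha)
  · have hsY := S.core_lt Y hY
    have heY := S.core_le Y hY
    have hkm : k ≤ S.m := hk'.trans z6
    have hlev : (rf u).2.val = S.refl.lev (S.refl.ze (Core.refl S.m Y)) := by
      rw [AS1.rf_val, S.ze_rf Y hY, hw.1]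
      show n - S.lev (S.zs Y) = n - S.lev (S.m - (S.m - S.zs Y))
      congr 2; omega
    obtain ⟨r, hr, hc⟩ := AS1.D_home_import S.refl (AS1.refl_mem S hY)
      (show S.m - Y.s ≠ S.m by have := hw.2; omega) ((S.freeN_rf u).2 hu)
      ((S.inZ_rf Y hY u.1).2 hZ) hlev (k := S.m - k)
      (by rw [S.it_rf Y hY]; omega) (by rw [S.ib_rf Y hY]; omega)
      ((S.InR_rf Y hY u.1 y).2 hy) ((S.free_rf y k hkm).2 hfy)
    have hc' := AS1.chain_rf S hc
    rw [AS1.nd_rf S y hkm, rf_rf] at hc'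
    exact ⟨r, hr, hc'.mono (S.subU' hu)⟩

theorem conv_home_export {Y : Core n} (hY : Y ∈ S.cores) {u v : Node n} (huY : S.memN Y u)
    (hv : S.freeN v) (hvu : (butterfly n).Adj u v) {y : Rw n} {k : ℕ} (hk : S.it Y ≤ k)
    (hk' : k ≤ S.ib Y) (hy : S.InR Y u.1 y) (hfy : S.free y k) :
    ∃ r ≤ 16 * cbg S.g * S.h Y.i, ∃ a, Chain (butterfly n) S.F (S.P u) (2 * S.g) r
      (nd y (S.lev k)) a ∧ Near (butterfly n) S.F (2 * S.g) a v := by
  obtain ⟨z1, z2, z3, z4, z5, z6, z7, z8, z9, z10, z11, z12⟩ := S.zone_arith hY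
  have hsY := S.core_lt Y hY
  have heY := S.core_le Y hY
  rcases AS1.wall_cases S huY (hv Y hY) hvu with ⟨e1, e2, e3⟩ | ⟨e1, e2, e3⟩
  · obtain ⟨r, hr, a, hc, hn⟩ := AS1.D_home_export S hY e3 huY e1 hv hvu e2 hk hk' hy hfy
    exact ⟨r, hr, a, hc.mono (S.subD u), hn⟩
  · have hkm : k ≤ S.m := hk'.trans z6
    have hlevs : S.lev Y.s ≤ n := S.toFrame.lev_le_n (by omega)
    have hl1 : (rf u).2.val = S.refl.lev (Core.refl S.m Y).e := by
      rw [AS1.rf_val, e1]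
      show n - S.lev Y.s = n - S.lev (S.m - (S.m - Y.s))
      congr 2; omega
    have hl2 : (rf v).2.val = S.refl.lev (Core.refl S.m Y).e + 1 := by
      rw [AS1.rf_val]
      show n - v.2.val = n - S.lev (S.m - (S.m - Y.s)) + 1
      have : S.m - (S.m - Y.s) = Y.s := by omega
      rw [this]
      omega
    obtain ⟨r, hr, a, hc, hn⟩ := AS1.D_home_export S.refl (AS1.refl_mem S hY)
      (show S.m - Y.s ≠ S.m by omega) ((S.memN_rf Y hY u).2 huY) hl1 ((S.freeN_rf v).2 hv)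
      (AS1.adj_rf hvu) hl2 (k := S.m - k)
      (by rw [S.it_rf Y hY]; omega) (by rw [S.ib_rf Y hY]; omega)
      ((S.InR_rf Y hY u.1 y).2 hy) ((S.free_rf y k hkm).2 hfy)
    have hc' := AS1.chain_rf S hc
    rw [AS1.nd_rf S y hkm] at hc'
    have hn' := AS1.near_rf' S hn
    rw [rf_rf] at hn'
    exact ⟨r, hr, rf a, hc'.mono (S.subU u), hn'⟩

/-- import of a role covered by the core `X` -/
theorem conv_import {X Y : Core n} (hX : X ∈ S.cores) (hY : Y ∈ S.cores) (hXY : X.i ≤ Y.i)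
    {u : Node n} (huX : S.memN X u) (hw : S.onZone Y u) {x y : Rw n} {k l : ℕ} (hk : S.it X ≤ k)
    (hk' : k ≤ S.ib X) (hl : S.it Y ≤ l) (hl' : l ≤ S.ib Y) (hx : S.InR X u.1 x)
    (hfx : S.free x k) (hy : S.InR Y u.1 y) (hfy : S.free y l) :
    ∃ r ≤ 16 * cbg S.g * S.h Y.i, Chain (butterfly n) S.F (S.P u) (2 * S.g) r
      (nd x (S.lev k)) (nd y (S.lev l)) := by
  obtain ⟨z1, z2, z3, z4, z5, z6, z7, z8, z9, z10, z11, z12⟩ := S.zone_arith hY
  obtain ⟨w1, w2, w3, w4, w5, w6, w7, w8, w9, w10, w11, w12⟩ := S.zone_arith hX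
  have hsY := S.core_lt Y hY
  have heY := S.core_le Y hY
  have hsX := S.core_lt X hX
  have heX := S.core_le X hX
  have hkm : k ≤ S.m := hk'.trans w6
  have hlm : l ≤ S.m := hl'.trans z6
  obtain ⟨hZ, hw⟩ := hw
  -- the level of the wall lies inside X
  have inX : ∀ β, β ≤ S.m → u.2.val = S.lev β → X.s ≤ β ∧ β ≤ X.e := by
    intro β hβ hβu
    constructor
    · have := huX.1
      rw [hβu] at this
      exact (AS1.lev_le_iff S (by omega) hβ).1 this
    · have := huX.2.1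
      rw [hβu] at this
      exact (AS1.lev_le_iff S hβ heX).1 this
  have huX' : S.inZ X u.1 := AS1.inZ_of_memN S hX huX
  rcases eq_or_lt_of_le hXY with hEq | hLt
  · -- equal scales
    by_cases hty : S.ty Y = true
    · have hb : (S.zs Y = S.zs Y ∧ Y.s ≠ 0 ∧ u.2.val = S.lev (S.zs Y)) ∨
          (S.ze Y = S.ze Y ∧ Y.e ≠ S.m ∧ u.2.val = S.lev (S.ze Y)) := by
        rcases hw with h | h
        · exact Or.inr ⟨rfl, h.2, h.1⟩
        · exact Or.inl ⟨rfl, h.2, h.1⟩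
      rcases hb with ⟨-, hb1, hb2⟩ | ⟨-, hb1, hb2⟩
      · obtain ⟨r, hr, hc⟩ := AS1.D_equal S hX hY hEq hty huX hZ (Or.inl ⟨rfl, hb1⟩) hb2 hk hk' hl
          hl' hx hfx hy hfy
        exact ⟨r, hr, hc.mono (S.subD u)⟩
      · obtain ⟨r, hr, hc⟩ := AS1.D_equal S hX hY hEq hty huX hZ (Or.inr ⟨rfl, hb1⟩) hb2 hk hk' hl
          hl' hx hfx hy hfy
        exact ⟨r, hr, hc.mono (S.subD u)⟩
    · have hty' : S.ty Y = false := by
        cases hh : S.ty Y
        · rfl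
        · exact absurd hh hty
      have hrr : Core.refl S.m (Core.refl S.m Y) = Y := by
        unfold Core.refl
        ext1
        · rfl
        · show S.m - (S.m - Y.s) = Y.s
          omega
        · show S.m - (S.m - Y.e) = Y.e
          omega
        · exact rv_rv Y.b
      have htyR : S.refl.ty (Core.refl S.m Y) = true := by
        show (! S.ty (Core.refl S.m (Core.refl S.m Y))) = true
        rw [hrr, hty']; rfl
      have hb : (S.refl.zs (Core.refl S.m Y) = S.refl.zs (Core.refl S.m Y) ∧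
            (Core.refl S.m Y).s ≠ 0 ∧ (rf u).2.val = S.refl.lev (S.refl.zs (Core.refl S.m Y))) ∨
          (S.refl.ze (Core.refl S.m Y) = S.refl.ze (Core.refl S.m Y) ∧
            (Core.refl S.m Y).e ≠ S.m ∧ (rf u).2.val = S.refl.lev (S.refl.ze (Core.refl S.m Y))) := by
        rcases hw with h | h
        · left
          refine ⟨rfl, ?_, ?_⟩
          · show S.m - Y.e ≠ 0
            have := h.2
            omega
          · rw [AS1.rf_val, S.zs_rf Y hY, h.1]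
            show n - S.lev (S.ze Y) = n - S.lev (S.m - (S.m - S.ze Y))
            congr 2; omega
        · right
          refine ⟨rfl, ?_, ?_⟩
          · show S.m - Y.s ≠ S.m
            have := h.2
            omega
          · rw [AS1.rf_val, S.ze_rf Y hY, h.1]
            show n - S.lev (S.zs Y) = n - S.lev (S.m - (S.m - S.zs Y))
            congr 2; omega
      have fin : ∀ β', (β' = S.refl.zs (Core.refl S.m Y) ∧ (Core.refl S.m Y).s ≠ 0 ∨
          β' = S.refl.ze (Core.refl S.m Y) ∧ (Core.refl S.m Y).e ≠ S.m) →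
          (rf u).2.val = S.refl.lev β' →
          ∃ r ≤ 16 * cbg S.g * S.h Y.i, Chain (butterfly n) S.F (S.P u) (2 * S.g) r
            (nd x (S.lev k)) (nd y (S.lev l)) := by
        intro β' hβ' hβu
        obtain ⟨r, hr, hc⟩ := AS1.D_equal S.refl (AS1.refl_mem S hX) (AS1.refl_mem S hY) hEq htyR
          ((S.memN_rf X hX u).2 huX) ((S.inZ_rf Y hY u.1).2 hZ) hβ' hβu
          (k := S.m - k) (l := S.m - l)
          (by rw [S.it_rf X hX]; omega) (by rw [S.ib_rf X hX]; omega)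
          (by rw [S.it_rf Y hY]; omega) (by rw [S.ib_rf Y hY]; omega)
          ((S.InR_rf X hX u.1 x).2 hx) ((S.free_rf x k hkm).2 hfx)
          ((S.InR_rf Y hY u.1 y).2 hy) ((S.free_rf y l hlm).2 hfy)
        have hc' := AS1.chain_rf S hc
        rw [AS1.nd_rf S x hkm, AS1.nd_rf S y hlm] at hc'
        exact ⟨r, hr, hc'.mono (S.subU u)⟩
      rcases hb with ⟨-, hb1, hb2⟩ | ⟨-, hb1, hb2⟩
      · exact fin _ (Or.inl ⟨rfl, hb1⟩) hb2
      · exact fin _ (Or.inr ⟨rfl, hb1⟩) hb2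
  · rcases hw with h | h
    · obtain ⟨i1, i2⟩ := inX (S.ze Y) z3 h.1
      have hlow : S.lowW Y (S.ze Y) u.1 := ⟨Or.inr rfl, h.2, hZ, fun j hj => hZ j (Or.inr hj)⟩
      obtain ⟨r, hr, hc⟩ := AS1.D_small S hX hY hLt huX' hlow h.1 (by omega) (by omega) hk hk' hl
        hl' hx hfx hy hfy
      exact ⟨r, hr, hc.mono (S.subD u)⟩
    · obtain ⟨i1, i2⟩ := inX (S.zs Y) (by omega) h.1
      have hZ' := (S.inZ_rf Y hY u.1).2 hZ
      have hlow : S.refl.lowW (Core.refl S.m Y) (S.refl.ze (Core.refl S.m Y)) (rf u).1 :=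
        ⟨Or.inr rfl, show S.m - Y.s ≠ S.m by have := h.2; omega, hZ',
          fun j hj => hZ' j (Or.inr hj)⟩
      have hlev : (rf u).2.val = S.refl.lev (S.refl.ze (Core.refl S.m Y)) := by
        rw [AS1.rf_val, S.ze_rf Y hY, h.1]
        show n - S.lev (S.zs Y) = n - S.lev (S.m - (S.m - S.zs Y))
        congr 2; omega
      obtain ⟨r, hr, hc⟩ := AS1.D_small S.refl (AS1.refl_mem S hX) (AS1.refl_mem S hY) hLt
          ((S.inZ_rf X hX u.1).2 huX') hlow hlev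
          (by rw [S.it_rf X hX, S.ze_rf Y hY]; omega) (by rw [S.ib_rf X hX, S.ze_rf Y hY]; omega)
          (k := S.m - k) (l := S.m - l)
          (by rw [S.it_rf X hX]; omega) (by rw [S.ib_rf X hX]; omega)
          (by rw [S.it_rf Y hY]; omega) (by rw [S.ib_rf Y hY]; omega)
          ((S.InR_rf X hX u.1 x).2 hx) ((S.free_rf x k hkm).2 hfx)
          ((S.InR_rf Y hY u.1 y).2 hy) ((S.free_rf y l hlm).2 hfy)
      have hc' := AS1.chain_rf S hc
      rw [AS1.nd_rf S x hkm, AS1.nd_rf S y hlm] at hc'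
      exact ⟨r, hr, hc'.mono (S.subU u)⟩

/-- export of a role on the wall of the core `Y` to the T-structure of a smaller scale -/
theorem conv_export {X Y : Core n} (hX : X ∈ S.cores) (hY : Y ∈ S.cores) (hXY : X.i < Y.i)
    {u v : Node n} (huY : S.memN Y u) (hvY : ¬ S.memN Y v) (hvu : (butterfly n).Adj u v)
    (huX : S.inZ X u.1) (hu1 : S.lev (S.zs X) ≤ u.2.val) (hu2 : u.2.val ≤ S.lev (S.ze X))
    {x y : Rw n} {k l : ℕ} (hk : S.it X ≤ k)
    (hk' : k ≤ S.ib X) (hl : S.it Y ≤ l) (hl' : l ≤ S.ib Y) (hx : S.InR X u.1 x)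
    (hfx : S.free x k) (hy : S.InR Y u.1 y) (hfy : S.free y l) :
    ∃ r ≤ 16 * cbg S.g * S.h Y.i, Chain (butterfly n) S.F (S.P u) (2 * S.g) r
      (nd y (S.lev l)) (nd x (S.lev k)) := by
  obtain ⟨z1, z2, z3, z4, z5, z6, z7, z8, z9, z10, z11, z12⟩ := S.zone_arith hY
  obtain ⟨w1, w2, w3, w4, w5, w6, w7, w8, w9, w10, w11, w12⟩ := S.zone_arith hX
  have hsY := S.core_lt Y hY
  have heY := S.core_le Y hY
  have hsX := S.core_lt X hX
  have heX := S.core_le X hX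
  have hkm : k ≤ S.m := hk'.trans w6
  have hlm : l ≤ S.m := hl'.trans z6
  have inX : ∀ β, β ≤ S.m → u.2.val = S.lev β → S.zs X ≤ β ∧ β ≤ S.ze X := by
    intro β hβ hβu
    rw [hβu] at hu1 hu2
    exact ⟨(AS1.lev_le_iff S (by omega) hβ).1 hu1, (AS1.lev_le_iff S hβ w3).1 hu2⟩
  have hZ : S.inZ Y u.1 := AS1.inZ_of_memN S hY huY
  rcases AS1.wall_cases S huY hvY hvu with ⟨e1, e2, e3⟩ | ⟨e1, e2, e3⟩
  · obtain ⟨i1, i2⟩ := inX Y.e heY e1
    have hlow : S.lowW Y Y.e u.1 := ⟨Or.inl rfl, e3, hZ, fun j hj => huY.2.2 j (Or.inr hj)⟩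
    obtain ⟨r, hr, hc⟩ := AS1.D_small S hX hY hXY huX hlow e1 (by omega) (by omega) hk hk' hl
        hl' hx hfx hy hfy
    exact ⟨r, hr, (hc.mono (S.subD u)).symm⟩
  · obtain ⟨i1, i2⟩ := inX Y.s (by omega) e1
    have hZ' := (S.inZ_rf Y hY u.1).2 hZ
    have hm' := (S.memN_rf Y hY u).2 huY
    have hlow : S.refl.lowW (Core.refl S.m Y) (Core.refl S.m Y).e (rf u).1 :=
        ⟨Or.inl rfl, show S.m - Y.s ≠ S.m by omega, hZ', fun j hj => hm'.2.2 j (Or.inr hj)⟩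
    have hlev : (rf u).2.val = S.refl.lev (Core.refl S.m Y).e := by
        rw [AS1.rf_val, e1]
        show n - S.lev Y.s = n - S.lev (S.m - (S.m - Y.s))
        congr 2; omega
    obtain ⟨r, hr, hc⟩ := AS1.D_small S.refl (AS1.refl_mem S hX) (AS1.refl_mem S hY) hXY
          ((S.inZ_rf X hX u.1).2 huX) hlow hlev
          (by rw [S.it_rf X hX]; show S.m - S.ib X ≤ S.m - Y.s; omega)
          (by rw [S.ib_rf X hX]; show S.m - Y.s ≤ S.m - S.it X; omega)
          (k := S.m - k) (l := S.m - l)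
          (by rw [S.it_rf X hX]; omega) (by rw [S.ib_rf X hX]; omega)
          (by rw [S.it_rf Y hY]; omega) (by rw [S.ib_rf Y hY]; omega)
          ((S.InR_rf X hX u.1 x).2 hx) ((S.free_rf x k hkm).2 hfx)
          ((S.InR_rf Y hY u.1 y).2 hy) ((S.free_rf y l hlm).2 hfy)
    have hc' := AS1.chain_rf S hc
    rw [AS1.nd_rf S x hkm, AS1.nd_rf S y hlm] at hc'
    exact ⟨r, hr, (hc'.mono (S.subU u)).symm⟩

end Sys

end Pool.Agent.Bfly
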