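import Pool.Agent.Lib.MP_d71b33_lc_helper25.AS1
import Pool.Agent.Lib.MP_d71b33_lc_helper31.PO2

/-!
# Task AS2: assembly of the deterministic theorem
-/

namespace Pool.Agent.Bfly

open Set

variable {n : ℕ}

namespace AS2

variable (S : Sys n)

/-- T-copies -/
abbrev TC : Type := {c : Core n × Node n × Rw n // c.1 ∈ S.cores ∧ S.hosted c.1 c.2.1 ∧
  S.InR c.1 c.2.1.1 c.2.2 ∧ S.free c.2.2 (S.tl c.1 c.2.1.2.val)}

/-- home copies and T-copies -/
abbrev CC : Type := {v : Node n // S.freeN v} ⊕ TC S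

def role : CC S → Node n
  | Sum.inl v => v.1
  | Sum.inr c => c.1.2.1

def host : CC S → Node n
  | Sum.inl v => v.1
  | Sum.inr c => nd c.1.2.2 (S.lev (S.tl c.1.1 c.1.2.1.2.val))

noncomputable def mu : CC S → ℕ
  | Sum.inl v => S.MH v.1
  | Sum.inr c => S.MT c.1.1 c.1.2.1

theorem hosted_level {Q : Core n} {v : Node n} (hv : S.hosted Q v) :
    S.lev (S.zs Q) ≤ v.2.val ∧ v.2.val ≤ S.lev (S.ze Q) := by
  obtain ⟨-, h1, h2, -⟩ := hv
  constructor
  · rcases h1 with h | h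
    · have : S.zs Q = 0 := by unfold Sys.zs; rw [if_pos h]
      rw [this, S.lev_zero]; omega
    · exact h.le
  · rcases h2 with h | h
    · have : S.ze Q = S.m := by unfold Sys.ze; rw [if_pos h]
      rw [this, S.lev_m]
      have := v.2.isLt
      omega
    · exact h.le

theorem tl_range {Q : Core n} (hQ : Q ∈ S.cores) {v : Node n}
    (h2 : v.2.val ≤ S.lev (S.ze Q)) :
    S.it Q ≤ S.tl Q v.2.val ∧ S.tl Q v.2.val ≤ S.ib Q ∧ S.tl Q v.2.val ≤ S.m := by
  obtain ⟨z1, z2, z3, z4, z5, z6, z7, z8, z9, z10, z11, z12⟩ := S.zone_arith hQ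
  unfold Sys.tl
  unfold Sys.nb at z8
  omega

theorem nd_val (x : Rw n) {k : ℕ} (hk : k ≤ S.m) : (nd x (S.lev k)).2.val = S.lev k := by
  unfold nd
  have h3 : S.lev k ≤ n := S.toFrame.lev_le_n hk
  simp only
  omega

theorem mem_PR {Q : Core n} (hQ : Q ∈ S.cores) {v : Node n} (hZ : S.inZ Q v.1)
    (h1 : S.lev (S.zs Q) ≤ v.2.val) (h2 : v.2.val ≤ S.lev (S.ze Q)) {x : Rw n}
    (hx : S.InR Q v.1 x) : nd x (S.lev (S.tl Q v.2.val)) ∈ S.PR v := by
  obtain ⟨t1, t2, t3⟩ := tl_range S hQ h2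
  exact ⟨Q, hQ, hZ, S.tl Q v.2.val, t1, t2, nd_val S x t3, hx,
    Or.inr ⟨by omega, by omega, h1, h2⟩⟩

/-- a core of largest scale containing a non free node -/
theorem exists_max {u : Node n} (hu : ¬ S.freeN u) :
    ∃ Y ∈ S.cores, S.memN Y u ∧ ∀ P ∈ S.cores, Y.i < P.i → ¬ S.memN P u := by
  classical
  unfold Sys.freeN at hu
  push Not at hu
  obtain ⟨Q0, hQ0, hm0⟩ := hu
  have hex : ∃ t, ∃ Y ∈ S.cores, S.memN Y u ∧ S.top - Y.i = t := ⟨_, Q0, hQ0, hm0, rfl⟩
  obtain ⟨Y, hY, hm, ht⟩ := Nat.find_spec hex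
  refine ⟨Y, hY, hm, fun P hP hlt hPm => ?_⟩
  have h1 := S.core_top P hP
  have h2 := Nat.find_min' hex ⟨P, hP, hPm, rfl⟩
  omega

theorem hosted_of_max {Y : Core n} (hY : Y ∈ S.cores) {u : Node n} (hm : S.memN Y u)
    (hmax : ∀ P ∈ S.cores, Y.i < P.i → ¬ S.memN P u) : S.hosted Y u := by
  obtain ⟨z1, z2, z3, z4, z5, z6, z7, z8, z9, z10, z11, z12⟩ := S.zone_arith hY
  have hsY := S.core_lt Y hY
  have heY := S.core_le Y hY
  have hpos := AS1.h_pos S Y.i
  refine ⟨AS1.inZ_of_memN S hY hm, ?_, ?_, hmax⟩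
  · by_cases h0 : Y.s = 0
    · exact Or.inl h0
    · right
      have hz : S.zs Y < Y.s := by
        unfold Sys.zs; rw [if_neg h0]; omega
      have := S.toFrame.lev_lt hz (by omega)
      exact lt_of_lt_of_le this hm.1
  · by_cases h0 : Y.e = S.m
    · exact Or.inl h0
    · right
      have hz : Y.e < S.ze Y := by
        unfold Sys.ze; rw [if_neg h0]; omega
      have := S.toFrame.lev_lt hz z3
      exact lt_of_le_of_lt hm.2.1 this

/-- a T-copy of a hosted role -/
theorem exists_TC {Q : Core n} (hQ : Q ∈ S.cores) {v : Node n} (hv : S.hosted Q v) :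
    ∃ x, S.InR Q v.1 x ∧ S.free x (S.tl Q v.2.val) := by
  obtain ⟨h1, h2⟩ := hosted_level S hv
  obtain ⟨t1, t2, t3⟩ := tl_range S hQ h2
  exact S.exists_R hQ hv hv.1 t1 t2

theorem host_not_faulty (c : CC S) : host S c ∉ S.F := by
  rcases c with v | c
  · exact S.not_faulty_of_freeN v.2
  · obtain ⟨hQ, hv, hx, hf⟩ := c.2
    obtain ⟨h1, h2⟩ := hosted_level S hv
    obtain ⟨t1, t2, t3⟩ := tl_range S hQ h2
    exact S.not_faulty_of_free t3 hf

theorem host_load (a : Node n) : {c | host S c = a}.encard ≤ (Sys.KT S.g S.K : ℕ) := by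
  have hsub : {c | host S c = a} ⊆ (Sum.inl '' {v : {v : Node n // S.freeN v} | v.1 = a}) ∪
      (Sum.inr '' {c : TC S | host S (Sum.inr c) = a}) := by
    rintro (v | c) hc
    · exact Or.inl ⟨v, hc, rfl⟩
    · exact Or.inr ⟨c, hc, rfl⟩
  have h1 : (Sum.inl '' {v : {v : Node n // S.freeN v} | v.1 = a} : Set (CC S)).encard ≤ 1 := by
    refine (encard_image_le _ _).trans ?_
    rw [encard_le_one_iff]
    intro v w hv hw
    exact Subtype.ext (hv.trans hw.symm)
  have h2 : (Sum.inr '' {c : TC S | host S (Sum.inr c) = a} : Set (CC S)).encard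
      ≤ (Sys.KR S.g S.K : ℕ) := by
    refine (encard_image_le _ _).trans (le_trans ?_ (S.load_R a))
    refine encard_le_encard_of_injOn (f := fun c : TC S => (c.1.1, c.1.2.1)) ?_ ?_
    · intro c hc
      obtain ⟨hQ, hv, hx, hf⟩ := c.2
      obtain ⟨h1, h2⟩ := hosted_level S hv
      obtain ⟨t1, t2, t3⟩ := tl_range S hQ h2
      have hc' : nd c.1.2.2 (S.lev (S.tl c.1.1 c.1.2.1.2.val)) = a := hc
      refine ⟨hQ, hv.1, S.tl c.1.1 c.1.2.1.2.val, t1, t2, ?_, ?_, Or.inr ⟨?_, ?_, h1, h2⟩⟩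
      · rw [← hc']; exact nd_val S _ t3
      · rw [← hc']; exact hx
      · show S.tl c.1.1 c.1.2.1.2.val ≤ S.tl c.1.1 c.1.2.1.2.val + 1; omega
      · show S.tl c.1.1 c.1.2.1.2.val ≤ S.tl c.1.1 c.1.2.1.2.val + 1; omega
    · intro c hc d hd hcd
      have hc' : nd c.1.2.2 (S.lev (S.tl c.1.1 c.1.2.1.2.val)) = a := hc
      have hd' : nd d.1.2.2 (S.lev (S.tl d.1.1 d.1.2.1.2.val)) = a := hd
      have e1 : c.1.2.2 = a.1 := by rw [← hc']; rfl
      have e2 : d.1.2.2 = a.1 := by rw [← hd']; rfl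
      have e3 : (c.1.1, c.1.2.1) = (d.1.1, d.1.2.1) := hcd
      obtain ⟨e4, e5⟩ := Prod.mk.inj e3
      apply Subtype.ext
      refine Prod.ext e4 (Prod.ext e5 ?_)
      rw [e1, e2]
  refine (encard_le_encard hsub).trans ((encard_union_le _ _).trans ((add_le_add h1 h2).trans ?_))
  have key : 1 + Sys.KR S.g S.K ≤ Sys.KT S.g S.K := by
    unfold Sys.KT; omega
  exact_mod_cast key

theorem host_mem (c : CC S) : host S c ∈ S.P (role S c) := by
  rcases c with v | c
  · exact Or.inl (Or.inl (Or.inl ⟨rfl, v.2⟩))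
  · obtain ⟨hQ, hv, hx, hf⟩ := c.2
    obtain ⟨h1, h2⟩ := hosted_level S hv
    exact Or.inl (Or.inl (Or.inr (mem_PR S hQ hv.1 h1 h2 hx)))

/-- neighbours of hosted roles are in the closed zone -/
theorem nbr_zone {Q : Core n} {v u : Node n} (hv : S.hosted Q v) (huv : (butterfly n).Adj u v) :
    S.inZ Q u.1 ∧ S.lev (S.zs Q) ≤ u.2.val ∧ u.2.val ≤ S.lev (S.ze Q) := by
  obtain ⟨h0, h1, h2, -⟩ := hv
  have hun := u.2.isLt
  have hvn := v.2.isLt
  have zl : S.lev (S.zs Q) = 0 ∨ S.lev (S.zs Q) < v.2.val := by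
    rcases h1 with h | h
    · left
      have : S.zs Q = 0 := by unfold Sys.zs; rw [if_pos h]
      rw [this, S.lev_zero]
    · exact Or.inr h
  have zu : S.lev (S.ze Q) = n ∨ v.2.val < S.lev (S.ze Q) := by
    rcases h2 with h | h
    · left
      have : S.ze Q = S.m := by unfold Sys.ze; rw [if_pos h]
      rw [this, S.lev_m]
    · exact Or.inr h
  rcases huv with ⟨a1, a2⟩ | ⟨a1, a2⟩
  · -- Up u v
    refine ⟨fun j hj => ?_, ?_, ?_⟩
    · have hjn := j.isLt
      rw [← a2 j (by omega)]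
      exact h0 j hj
    · omega
    · omega
  · -- Up v u
    refine ⟨fun j hj => ?_, ?_, ?_⟩
    · have hjn := j.isLt
      rw [a2 j (by omega)]
      exact h0 j hj
    · omega
    · omega

theorem r_le {i r : ℕ} (hr : r ≤ 16 * cbg S.g * S.h i) : r ≤ S.D i := by
  unfold Sys.D
  have e3 : 16 * cbg S.g * S.h i = 16 * (cbg S.g * S.h i) := by ring
  have e4 : 32 * cbg S.g * S.h i = 32 * (cbg S.g * S.h i) := by ring
  omega

theorem comp_step (c : CC S) (u : Node n) (hu : (butterfly n).Adj u (role S c)) :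
    ∃ c' r y, role S c' = u ∧ Chain (butterfly n) S.F (S.P u) (2 * S.g) r (host S c') y ∧
      Near (butterfly n) S.F (2 * S.g) y (host S c) ∧
      mu S c' + r + 2 ≤ (4 * Sys.kap S.g + 8) + mu S c := by
  have hg := S.five_le_g
  rcases c with v | c
  · -- home
    have hv : S.freeN v.1 := v.2
    have huv : (butterfly n).Adj u v.1 := hu
    by_cases huf : S.freeN u
    · refine ⟨Sum.inl ⟨u, huf⟩, 0, u, rfl, Chain.refl (host_mem S (Sum.inl ⟨u, huf⟩)), ?_, ?_⟩
      · exact (Near.single (S.not_faulty_of_freeN huf) (S.not_faulty_of_freeN hv) huv).mono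
          (by omega)
      · have := S.MH_lip huv
        show S.MH u + 0 + 2 ≤ (4 * Sys.kap S.g + 8) + S.MH v.1
        omega
    · obtain ⟨Y, hY, hm, hmax⟩ := exists_max S huf
      have hh := hosted_of_max S hY hm hmax
      obtain ⟨y, hy, hfy⟩ := exists_TC S hY hh
      obtain ⟨h1, h2⟩ := hosted_level S hh
      obtain ⟨t1, t2, t3⟩ := tl_range S hY h2
      obtain ⟨r, hr, a, hc, hn⟩ := S.conv_home_export hY hm hv huv t1 t2 hy hfy
      refine ⟨Sum.inr ⟨(Y, u, y), hY, hh, hy, hfy⟩, r, a, rfl, hc, hn, ?_⟩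
      have h3 := S.MT_MH hY huv hm
      have h4 := r_le S hr
      show S.MT Y u + r + 2 ≤ (4 * Sys.kap S.g + 8) + S.MH v.1
      omega
  · obtain ⟨⟨Q, v, x⟩, hQ, hv, hx, hf⟩ := c
    simp only at hQ hv hx hf
    have huv : (butterfly n).Adj u v := hu
    obtain ⟨v1, v2⟩ := hosted_level S hv
    obtain ⟨uZ, u1, u2⟩ := nbr_zone S hv huv
    obtain ⟨y, hy, hfy, hnear⟩ := S.nbr_R hQ huv hv.1 uZ v1 v2 u1 u2 hx hf
    obtain ⟨t1, t2, t3⟩ := tl_range S hQ u2
    by_cases hbig : ∃ P ∈ S.cores, Q.i < P.i ∧ S.memN P u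
    · -- (a) a larger core contains u
      obtain ⟨P, hP, hPi, hPm⟩ := hbig
      have huf : ¬ S.freeN u := fun h => h P hP hPm
      obtain ⟨Y, hY, hm, hmax⟩ := exists_max S huf
      have hYi : Q.i < Y.i := by
        by_contra hc
        exact hmax P hP (by omega) hPm
      have hh := hosted_of_max S hY hm hmax
      obtain ⟨z, hz, hfz⟩ := exists_TC S hY hh
      obtain ⟨h1, h2⟩ := hosted_level S hh
      obtain ⟨s1, s2, s3⟩ := tl_range S hY h2
      have hvY : ¬ S.memN Y v := hv.2.2.2 Y hY hYi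
      obtain ⟨r, hr, hc⟩ := S.conv_export hQ hY hYi hm hvY huv uZ u1 u2 t1 t2 s1 s2 hy hfy hz hfz
      refine ⟨Sum.inr ⟨(Y, u, z), hY, hh, hz, hfz⟩, r, _, rfl, hc, hnear, ?_⟩
      have h3 := S.MT_export hQ hY hYi huv hm
      have h4 := r_le S hr
      show S.MT Y u + r + 2 ≤ (4 * Sys.kap S.g + 8) + S.MT Q v
      omega
    · push Not at hbig
      by_cases hhu : S.hosted Q u
      · refine ⟨Sum.inr ⟨(Q, u, y), hQ, hhu, hy, hfy⟩, 0, _, rfl,
          Chain.refl (host_mem S (Sum.inr ⟨(Q, u, y), hQ, hhu, hy, hfy⟩)), hnear, ?_⟩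
        have h3 := S.MT_lip hQ huv
        show S.MT Q u + 0 + 2 ≤ (4 * Sys.kap S.g + 8) + S.MT Q v
        omega
      · have hon : S.onZone Q u := by
          refine ⟨uZ, ?_⟩
          by_contra hc
          push Not at hc
          apply hhu
          refine ⟨uZ, ?_, ?_, fun P hP hPi => hbig P hP hPi⟩
          · by_cases h0 : Q.s = 0
            · exact Or.inl h0
            · right
              rcases eq_or_lt_of_le u1 with h | h
              · exact absurd (hc.2 h.symm) h0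
              · exact h
          · by_cases h0 : Q.e = S.m
            · exact Or.inl h0
            · right
              rcases eq_or_lt_of_le u2 with h | h
              · exact absurd (hc.1 h) h0
              · exact h
        by_cases huf : S.freeN u
        · obtain ⟨r, hr, hc⟩ := S.conv_home_import hQ huf hon t1 t2 hy hfy
          refine ⟨Sum.inl ⟨u, huf⟩, r, _, rfl, hc, hnear, ?_⟩
          have h3 := S.MH_MT hQ huv hon hv
          have h4 := r_le S hr
          show S.MH u + r + 2 ≤ (4 * Sys.kap S.g + 8) + S.MT Q v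
          omega
        · obtain ⟨X, hX, hm, hmax⟩ := exists_max S huf
          have hXi : X.i ≤ Q.i := by
            by_contra hc
            exact hbig X hX (by omega) hm
          have hh := hosted_of_max S hX hm hmax
          obtain ⟨z, hz, hfz⟩ := exists_TC S hX hh
          obtain ⟨h1, h2⟩ := hosted_level S hh
          obtain ⟨s1, s2, s3⟩ := tl_range S hX h2
          obtain ⟨r, hr, hc⟩ := S.conv_import hX hQ hXi hm hon s1 s2 t1 t2 hz hfz hy hfy
          refine ⟨Sum.inr ⟨(X, u, z), hX, hh, hz, hfz⟩, r, _, rfl, hc, hnear, ?_⟩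
          have h3 := S.MT_import hX hQ hXi huv hon hm hv
          have h4 := r_le S hr
          show S.MT X u + r + 2 ≤ (4 * Sys.kap S.g + 8) + S.MT Q v
          omega

end AS2

namespace Sys

variable (S : Sys n)

theorem emulates : Emulates (butterfly n) (butterfly n) S.F (slow S.g S.K) := by
  have h := emulates_of_transport (butterfly n) (butterfly n) S.F (AS2.role S) (AS2.host S)
    (AS2.mu S) S.P (KT S.g S.K) 4 (2 * S.g) (4 * kap S.g + 8) (by omega)
    (AS2.host_not_faulty S) (AS2.host_load S) (S.load_P) (AS2.host_mem S)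
    (butterfly_degree n) (butterfly_degree n)
    (fun c v hv => AS2.comp_step S c v hv) (by
      intro v
      rcases S.exists_zero v with ⟨hf, h0⟩ | ⟨Q, hQ, hv, h0⟩
      · exact ⟨Sum.inl ⟨v, hf⟩, rfl, by show S.MH v ≤ _; omega⟩
      · obtain ⟨x, hx, hfx⟩ := AS2.exists_TC S hQ hv
        exact ⟨Sum.inr ⟨(Q, v, x), hQ, hv, hx, hfx⟩, rfl, by show S.MT Q v ≤ _; omega⟩)
  exact h

end Sys

end Pool.Agent.Bfly
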